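import Pool.Agent.H99.BV.Main

set_option autoImplicit false

/-!
# Balancing unit vectors under the parity condition: radius `√(d - 8/15)`

If `n` and `d` have opposite parity, then any `n` unit vectors in `ℝ^d` have a signed sum of norm at
most `√(d - 8/15)`. Without the parity condition `√d` cannot be improved (orthonormal vectors), and
the question asks for `√(d - 1)`. The library has `√(d - 1/2)` (HalfGap, ParityGain).

The proof is that of the library's HalfGap with three changes. The weights `(1 + l ∑ x i η i)²` for
the frozen sum `u` of a vertex `x` are used with the best `l`, which shows `‖u‖ ≤ 1/2` as long as all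
signed sums have squared norm more than `d - 8/15`. In the last stage the pair which is split is the
closest one among the alive pairs, which improves the lower bound for `‖u‖²` there from
`δ - D` to `δ - D / 2`; and the weights `1 + sin (∑ θ i η i)` are used there too, which
excludes the case that `‖u‖` is large but the coefficients `x i` are small.
-/

namespace Pool.Agent.Results.MP_1be6c9_co.EightFifteenths

/-- If `n` and `d` have opposite parity, every family of `n` unit vectors of `ℝ^d` has a signing
whose signed sum has norm at most `√(d - 8/15)`. -/
theorem result (d n : ℕ) (hpar : n % 2 ≠ d % 2) (v : Fin n → EuclideanSpace ℝ (Fin d))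
    (hv : ∀ i, ‖v i‖ = 1) :
    ∃ η : Fin n → ℝ, (∀ i, η i = 1 ∨ η i = -1) ∧
      ‖∑ i, η i • v i‖ ≤ Real.sqrt ((d : ℝ) - 8 / 15) := by
  obtain ⟨η, hη, h⟩ := Pool.Agent.H99.BV.main2 v hv (by simpa using hpar)
  refine ⟨η, hη, Real.le_sqrt_of_sq_le ?_⟩
  simpa using h

end Pool.Agent.Results.MP_1be6c9_co.EightFifteenths
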